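import Pool.Agent.Lib.MP_2de762_an.H98Range

/-! On the Hartogs triangle of the complex projective plane, the maximal Cauchy-Riemann operator
from square integrable `(2,0)`-forms to square integrable `(2,1)`-forms has closed range, with a
bounded inverse. -/

namespace Pool.Agent.Results.MP_2de762_an.ClosedRange

open MeasureTheory Filter Topology Pool.Agent.Lib.MP_2de762_an

theorem result : ∃ C : ℝ, ∀ (h a b : ℕ → ℂ × ℂ → ℂ) (A B : ℂ × ℂ → ℂ),
    (∀ n, MemLp (h n) 2 (volume.restrict Om) ∧ L21 (a n) (b n) ∧ WD dzb (h n) (a n) ∧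
      WD dwb (h n) (b n)) → L21 A B →
    Tendsto (fun n => ∫ p in Om, fs p (a n p - A p) (b n p - B p)) atTop (𝓝 0) →
    ∃ H : ℂ × ℂ → ℂ, MemLp H 2 (volume.restrict Om) ∧ WD dzb H A ∧ WD dwb H B ∧
      ∫ p in Om, ‖H p‖ ^ 2 ≤ C * ∫ p in Om, fs p (A p) (B p) := by
  obtain ⟨C, hC⟩ := estimate
  refine ⟨C, fun h a b A B hn hL he => ?_⟩
  obtain ⟨H, h1, h2, h3⟩ := closed_range h a b A B hn hL he
  exact ⟨H, h1, h2, h3, hC H A B h1 hL h2⟩

end Pool.Agent.Results.MP_2de762_an.ClosedRange
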