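import Pool.Agent.Lib.MP_2de762_an.H98NegB

/-! On the domain `|y^2 - x^3| < 1` of the complex projective plane, whose boundary is smooth except
at one point, a closed `(0,1)`-form that is smooth on the closure and vanishes near that point has
no solution in the Sobolev space of order one. -/

namespace Pool.Agent.Results.MP_2de762_an.CubicDomain

open MeasureTheory Pool.Agent.Lib.MP_2de762_an
open scoped ContDiff

theorem result : ∃ f1 f2 : ℂ × ℂ → ℂ, ContDiff ℝ ∞ f1 ∧ ContDiff ℝ ∞ f2 ∧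
    (∀ p, dwb f1 p = dzb f2 p) ∧ (∀ p, 1 ≤ ‖p.1‖ → f1 p = 0 ∧ f2 p = 0) ∧
    ¬∃ u : ℂ × ℂ → ℂ, W1On Cu u ∧ WDOn Cu dzb u f1 ∧ WDOn Cu dwb u f2 := by
  let b : ContDiffBump (0 : ℂ) := ⟨1 / 2, 1, by norm_num, by norm_num⟩
  have h0 : ∀ x : ℂ, 1 ≤ ‖x‖ → b x = 0 := fun x hx =>
    b.zero_of_le_dist (by rw [dist_zero_right]; exact hx)
  have h1 : ContDiff ℝ ∞ fun x : ℂ => (b x : ℂ) := Complex.ofRealCLM.contDiff.comp b.contDiff
  have h2 : ContDiff ℝ ∞ fun q : ℂ => q * q := contDiff_id.mul contDiff_id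
  refine ⟨fun p => b p.1 * (p.2 * lam p ^ 2), fun _ => 0,
    (h1.comp contDiff_fst).mul (contDiff_snd.mul (contDiff_lam.pow 2)), contDiff_const,
    fun p => ?_, fun p hp => ⟨by simp [h0 _ hp], rfl⟩, fun ⟨u, hu, k1, k2⟩ =>
      no_solution b.contDiff b.nonneg' h0 (by
        rw [b.one_of_mem_closedBall (Metric.mem_closedBall_self b.rIn_pos.le)]
        exact one_ne_zero) hu k1 k2⟩
  have e : (fun p : ℂ × ℂ => (b p.1 : ℂ) * (p.2 * lam p ^ 2)) =
      fun p => p.2 * (b p.1 * (lam p * lam p)) := by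
    funext p
    ring
  rw [e, dwb, wirt3 contDiff_snd h1 h2, (wirt_lam h2 _ _).2, (wirt_fst h1 _ _).2,
    (wirt_snd (χ := fun z => z) contDiff_id _ _).1,
    w1_mul (f := fun z => z) (g := fun z => z) contDiff_id contDiff_id, w1_id', w1_id']
  simp [dzb, wirt]

end Pool.Agent.Results.MP_2de762_an.CubicDomain
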