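import Pool.Agent.Lib.MP_2de762_an.H69Fin

open Pool.Agent.Lib.MP_2de762_an.H69 MeasureTheory in
/-- A Stein domain of the projective space of dimension four with Lipschitz boundary, smooth off a
projective line that lies in the boundary, on which the form of Fubini and Study has no primitive
with `k` derivatives in `L^p` as soon as `k p ≥ 6`. -/
theorem Pool.Agent.Results.MP_2de762_an.LipLine.result :
    ∃ Ω : Set E5, IsConeDomain Ω ∧ HasPshExhaustion Ω ∧ LipschitzBoundary Ω ∧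
      (∀ Z ∈ frontier Ω, ¬(Z 2 = 0 ∧ Z 3 = 0 ∧ Z 4 = 0) → SmoothBoundaryAt Ω Z) ∧
      (∀ Z : E5, Z 2 = 0 ∧ Z 3 = 0 ∧ Z 4 = 0 → Z ∈ frontier Ω) ∧
      ∀ (k : ℕ) (p : ENNReal), 1 ≤ p → 6 ≤ k * p → ¬ ∃ u : Fin 5 → E5 → ℂ,
        (∀ i, Sob (Ω ∩ {Z | 1 < N2 Z ∧ N2 Z < 4}) p k (u i)) ∧
        (∀ᵐ Z ∂volume.restrict (Ω ∩ {Z | 1 < N2 Z ∧ N2 Z < 4}), ∑ i, u i Z * Z i = 0) ∧
        ∀ i j φ, IsTest5 (Ω ∩ {Z | 1 < N2 Z ∧ N2 Z < 4}) φ →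
          ∫ Z in Ω ∩ {Z | 1 < N2 Z ∧ N2 Z < 4}, u i Z * dbar j φ Z =
            -∫ Z in Ω ∩ {Z | 1 < N2 Z ∧ N2 Z < 4}, fsCoeff i j Z * φ Z := by
  obtain ⟨g, hg, hg1, h⟩ := Om_psh
  refine ⟨Om g, Om_cone hg, h, Om_lip hg hg1, fun Z hZ k => ?_, fun Z k => line_frontier' hg k,
    no_primitive hg⟩
  rcases frontier_cases hg hg1 hZ (fun e => k (by simp [e])) with ⟨hR, -⟩ | ⟨-, hW⟩
  · exact Om_smooth hg hR
  · exact absurd (WW_zero hW) k
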