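import Pool.Agent.Lib.MP_2de762_an.H98Solve

/-! On the Hartogs triangle of the complex projective plane, every closed `(0,1)`-form with
coefficients in the Sobolev space of order one has a solution in that space. -/

namespace Pool.Agent.Results.MP_2de762_an.SobolevSolution

open MeasureTheory Pool.Agent.Lib.MP_2de762_an

theorem result (f1 f2 : ℂ × ℂ → ℂ) (h : W1Form f1 f2)
    (hc : ∀ φ, IsTest φ → ∫ p in Om, f1 p * dwb φ p = ∫ p in Om, f2 p * dzb φ p) :
    ∃ u : ℂ × ℂ → ℂ, W1 u ∧ WD dzb u f1 ∧ WD dwb u f2 :=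
  solve_w1 h hc

end Pool.Agent.Results.MP_2de762_an.SobolevSolution
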